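import Pool.Agent.Q260.OE.Stm2

set_option autoImplicit false

/-!
# Job OE-COE: the coefficients are close to `-μ(n)` when the distance is small
-/

namespace Pool.Agent.Q229.OE

open MeasureTheory Filter Topology Set
open Pool.Agent.Q286.BD (dif JJ S_coef)
open Pool.Agent.Q260.OE

/-- `∑ a_n / n` -/
noncomputable def SS (N : ℕ) (a : ℕ → ℝ) : ℝ := ∑ n ∈ Finset.Icc 1 N, a n / n

/-- the value of `1 + ∑ a_n ⌊k/n⌋` -/
noncomputable def cc (N : ℕ) (a : ℕ → ℝ) (k : ℕ) : ℝ := 1 + ∑ n ∈ Finset.Icc 1 N, a n * ((k / n : ℕ) : ℝ)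

theorem dif_right (N : ℕ) (a : ℕ → ℝ) {x : ℝ} (hx : 1 < x) : dif N a x = -(SS N a / x) := by
  have hx0 : 0 < x := by linarith
  unfold dif SS
  rw [if_neg (not_le.2 hx), zero_sub, Finset.sum_div]
  congr 1
  refine Finset.sum_congr rfl fun n hn => ?_
  rw [Finset.mem_Icc] at hn
  have hn1 : (1 : ℝ) ≤ n := by exact_mod_cast hn.1
  have h1 : Int.fract (1 / ((n : ℝ) * x)) = 1 / (n * x) := by
    rw [Int.fract_eq_self]
    refine ⟨by positivity, ?_⟩
    rw [div_lt_one (by positivity)]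
    nlinarith
  rw [h1]
  have hn0 : (n : ℝ) ≠ 0 := by positivity
  field_simp

theorem dif_mid (N : ℕ) (a : ℕ → ℝ) {k : ℕ} (hk : 1 ≤ k) {x : ℝ} (h1 : 1 / ((k : ℝ) + 1) < x) (h2 : x < 1 / (k : ℝ)) :
    dif N a x = cc N a k - SS N a / x := by
  have hk1 : (1 : ℝ) ≤ k := by exact_mod_cast hk
  have hx0 : 0 < x := lt_trans (by positivity) h1
  have hx1 : x ≤ 1 := h2.le.trans (by rw [div_le_one (by positivity)]; exact hk1)
  have ha : (k : ℝ) < 1 / x := by
    rw [lt_div_iff₀ hx0]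
    rw [lt_div_iff₀ (by positivity)] at h2
    linarith
  have hb : 1 / x < (k : ℝ) + 1 := by
    rw [div_lt_iff₀ hx0]
    rw [div_lt_iff₀ (by positivity)] at h1
    linarith
  unfold dif cc SS
  rw [if_pos hx1, Finset.sum_div, add_sub_assoc, ← Finset.sum_sub_distrib, sub_eq_add_neg, ← Finset.sum_neg_distrib]
  congr 1
  refine Finset.sum_congr rfl fun n hn => ?_
  rw [Finset.mem_Icc] at hn
  have hn1 : (1 : ℝ) ≤ n := by exact_mod_cast hn.1
  have hn0 : (0 : ℝ) < n := by linarith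
  have hfl : ⌊1 / ((n : ℝ) * x)⌋ = ((k / n : ℕ) : ℤ) := by
    rw [Int.floor_eq_iff]
    have e : 1 / ((n : ℝ) * x) = (1 / x) / n := by
      field_simp
    rw [e]
    have h3 : n * (k / n) ≤ k := Nat.mul_div_le k n
    have h4 : k < n * (k / n) + n := by
      have := Nat.lt_mul_div_succ k (by omega : 0 < n)
      rw [Nat.mul_succ] at this
      exact this
    have h3' : (n : ℝ) * ((k / n : ℕ) : ℝ) ≤ k := by exact_mod_cast h3
    have h4' : (k : ℝ) + 1 ≤ (n : ℝ) * ((k / n : ℕ) : ℝ) + n := by exact_mod_cast h4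
    constructor
    · rw [le_div_iff₀ hn0, Int.cast_natCast, mul_comm]
      linarith
    · rw [div_lt_iff₀ hn0, Int.cast_natCast]
      linarith
  rw [Int.fract, hfl, Int.cast_natCast]
  generalize ((k / n : ℕ) : ℝ) = q
  have hx' : x ≠ 0 := hx0.ne'
  field_simp
  ring

theorem ss_le (N : ℕ) (a : ℕ → ℝ) (hint : IntegrableOn (fun x : ℝ => dif N a x ^ 2) (Ioi 0)) :
    SS N a ^ 2 ≤ JJ N a := by
  have h1 : ∫ x in Ioi (1 : ℝ), dif N a x ^ 2 ≤ JJ N a := by
    refine setIntegral_mono_set hint ?_ ?_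
    · exact Eventually.of_forall fun x => sq_nonneg _
    · exact (Ioi_subset_Ioi zero_le_one).eventuallyLE
  have h2 : ∫ x in Ioi (1 : ℝ), dif N a x ^ 2 = SS N a ^ 2 := by
    have e : ∫ x in Ioi (1 : ℝ), dif N a x ^ 2 = ∫ x in Ioi (1 : ℝ), SS N a ^ 2 * x ^ (-2 : ℝ) := by
      refine setIntegral_congr_fun measurableSet_Ioi fun x hx => ?_
      have hx0 : (0 : ℝ) < x := lt_trans one_pos hx
      rw [dif_right N a hx, Real.rpow_neg hx0.le, neg_sq, div_pow, div_eq_mul_inv]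
      norm_num
    rw [e, integral_const_mul, integral_Ioi_rpow_of_lt (by norm_num) one_pos]
    norm_num
  linarith

theorem cc_le (N : ℕ) (a : ℕ → ℝ) (hint : IntegrableOn (fun x : ℝ => dif N a x ^ 2) (Ioi 0)) {k : ℕ} (hk : 1 ≤ k) :
    cc N a k ^ 2 ≤ (2 * (k + 1)) ^ 2 * JJ N a := by
  have hk1 : (1 : ℝ) ≤ k := by exact_mod_cast hk
  have hk0 : (0 : ℝ) < k := by linarith
  set u : ℝ := 1 / ((k : ℝ) + 1) with hu
  set v : ℝ := 1 / (k : ℝ) with hv
  have hu0 : 0 < u := by positivity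
  have huv : u < v := one_div_lt_one_div_of_lt hk0 (by linarith)
  have hs := ss_le N a hint
  have h1 : ∫ x in Ioo u v, dif N a x ^ 2 ≤ JJ N a := by
    refine setIntegral_mono_set hint ?_ ?_
    · exact Eventually.of_forall fun x => sq_nonneg _
    · exact (show Ioo u v ≤ Ioi 0 from fun x hx => lt_trans hu0 hx.1).eventuallyLE
  -- lower bound: `c²/2 - S²/x² ≤ dif²`
  have hI1 : IntegrableOn (fun x : ℝ => dif N a x ^ 2) (Ioo u v) :=
    hint.mono_set fun x hx => lt_trans hu0 hx.1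
  have hI2 : IntegrableOn (fun x : ℝ => cc N a k ^ 2 / 2 - SS N a ^ 2 * x ^ (-2 : ℝ)) (Ioo u v) := by
    refine IntegrableOn.mono_set (t := Icc u v) ?_ Ioo_subset_Icc_self
    refine ContinuousOn.integrableOn_Icc ?_
    refine continuousOn_const.sub (continuousOn_const.mul ?_)
    intro x hx
    exact (Real.continuousAt_rpow_const x _ (Or.inl (lt_of_lt_of_le hu0 hx.1).ne')).continuousWithinAt
  have h2 : ∫ x in Ioo u v, (cc N a k ^ 2 / 2 - SS N a ^ 2 * x ^ (-2 : ℝ)) ≤ ∫ x in Ioo u v, dif N a x ^ 2 := by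
    refine setIntegral_mono_on hI2 hI1 measurableSet_Ioo fun x hx => ?_
    have hx0 : 0 < x := lt_trans hu0 hx.1
    rw [dif_mid N a hk hx.1 hx.2, Real.rpow_neg hx0.le]
    have e : SS N a ^ 2 * (x ^ (2 : ℝ))⁻¹ = (SS N a / x) ^ 2 := by
      rw [div_pow, div_eq_mul_inv]
      norm_num
    rw [e]
    nlinarith [sq_nonneg (cc N a k - 2 * (SS N a / x))]
  have h3 : ∫ x in Ioo u v, (cc N a k ^ 2 / 2 - SS N a ^ 2 * x ^ (-2 : ℝ)) =
      cc N a k ^ 2 / 2 * (v - u) - SS N a ^ 2 := by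
    rw [← integral_Ioc_eq_integral_Ioo, ← intervalIntegral.integral_of_le huv.le, intervalIntegral.integral_sub,
      intervalIntegral.integral_const, intervalIntegral.integral_const_mul, integral_rpow]
    · have e1 : (-2 : ℝ) + 1 = -1 := by norm_num
      rw [e1, Real.rpow_neg_one, Real.rpow_neg_one, smul_eq_mul, hu, hv]
      field_simp
      ring
    · right
      refine ⟨by norm_num, ?_⟩
      rw [uIcc_of_le huv.le]
      intro h
      exact absurd h.1 (not_le.2 hu0)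
    · exact intervalIntegrable_const
    · refine ContinuousOn.intervalIntegrable ?_
      refine continuousOn_const.mul ?_
      intro x hx
      rw [uIcc_of_le huv.le] at hx
      exact (Real.continuousAt_rpow_const x _ (Or.inl (lt_of_lt_of_le hu0 hx.1).ne')).continuousWithinAt
  have h4 : v - u = 1 / (k * (k + 1)) := by
    rw [hu, hv]
    field_simp
    ring
  rw [h3, h4] at h2
  have h5 : cc N a k ^ 2 / 2 * (1 / (k * (k + 1))) ≤ 2 * JJ N a := by linarith
  have h6 : cc N a k ^ 2 ≤ 4 * (k * (k + 1)) * JJ N a := by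
    rw [mul_one_div, div_le_iff₀ (by positivity)] at h5
    nlinarith
  have hJ : 0 ≤ JJ N a := le_trans (sq_nonneg _) hs
  nlinarith

theorem cc_zero (N : ℕ) (a : ℕ → ℝ) : cc N a 0 = 1 := by
  simp [cc]

/-- `⌊(k+1)/n⌋ - ⌊k/n⌋ = [n ∣ k+1]` -/
theorem cc_step (N : ℕ) (a : ℕ → ℝ) {k : ℕ} (hk : k + 1 ≤ N) :
    cc N a (k + 1) - cc N a k = ∑ d ∈ (k + 1).divisors, a d := by
  unfold cc
  rw [add_sub_add_left_eq_sub, ← Finset.sum_sub_distrib]
  have e1 : ∀ n ∈ Finset.Icc 1 N, a n * (((k + 1) / n : ℕ) : ℝ) - a n * ((k / n : ℕ) : ℝ) =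
      if n ∣ k + 1 then a n else 0 := by
    intro n hn
    rw [Nat.succ_div]
    split_ifs with h
    · push_cast
      ring
    · simp
  rw [Finset.sum_congr rfl e1, ← Finset.sum_filter]
  refine Finset.sum_congr ?_ fun _ _ => rfl
  ext n
  rw [Finset.mem_filter, Finset.mem_Icc, Nat.mem_divisors]
  constructor
  · rintro ⟨-, h⟩
    exact ⟨h, by omega⟩
  · rintro ⟨h, -⟩
    have h1 := Nat.le_of_dvd (by omega) h
    have h2 := Nat.pos_of_dvd_of_pos h (by omega)
    exact ⟨⟨by omega, by omega⟩, h⟩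

/-- JOB OE-COE -/
theorem t_COE (hcoef : S_coef) : S_COE := by
  obtain ⟨C0, hC0, hc⟩ := hcoef
  intro n hn
  refine ⟨1 + ∑ x ∈ n.divisorsAntidiagonal, 4 * ((x.2 : ℝ) + 1), by positivity, ?_⟩
  intro N a hnN
  have hint := (hc N a (by omega)).1
  set q := Real.sqrt (JJ N a) with hq
  have hq0 : 0 ≤ q := Real.sqrt_nonneg _
  have hJ : 0 ≤ JJ N a := le_trans (sq_nonneg _) (ss_le N a hint)
  have hcc : ∀ k : ℕ, 1 ≤ k → |cc N a k| ≤ 2 * (k + 1) * q := by
    intro k hk
    have h1 := cc_le N a hint hk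
    rw [← Real.sqrt_sq_eq_abs, hq]
    calc Real.sqrt (cc N a k ^ 2) ≤ Real.sqrt ((2 * (k + 1)) ^ 2 * JJ N a) := Real.sqrt_le_sqrt h1
      _ = 2 * (k + 1) * Real.sqrt (JJ N a) := by
          rw [Real.sqrt_mul (by positivity), Real.sqrt_sq (by positivity)]
  -- the Moebius inversion
  set F : ℕ → ℝ := fun k => ∑ d ∈ k.divisors, (a d + ((ArithmeticFunction.moebius d : ℤ) : ℝ)) with hF
  have hinv := (ArithmeticFunction.sum_eq_iff_sum_mul_moebius_eq
    (f := fun d => a d + ((ArithmeticFunction.moebius d : ℤ) : ℝ)) (g := F)).1 (fun k _ => rfl) n (by omega)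
  have hFb : ∀ k : ℕ, 1 ≤ k → k ≤ N → |F k| ≤ 4 * ((k : ℝ) + 1) * q := by
    intro k hk hkN
    have e1 : F k = (cc N a k - cc N a (k - 1)) + if k = 1 then 1 else 0 := by
      rw [hF]
      simp only
      rw [Finset.sum_add_distrib]
      congr 1
      · have := cc_step N a (k := k - 1) (by omega)
        rw [show k - 1 + 1 = k by omega] at this
        exact this.symm
      · have h1 : ∑ d ∈ k.divisors, ArithmeticFunction.moebius d = if k = 1 then 1 else 0 := by
          rw [← ArithmeticFunction.coe_mul_zeta_apply, ArithmeticFunction.moebius_mul_coe_zeta,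
            ArithmeticFunction.one_apply]
        have h2 := congrArg (fun z : ℤ => (z : ℝ)) h1
        simp only [Int.cast_sum] at h2
        rw [h2]
        split_ifs <;> simp
    rw [e1]
    rcases Nat.lt_or_ge 1 k with h | h
    · rw [if_neg (by omega), add_zero]
      have h1 := hcc k hk
      have h2 := hcc (k - 1) (by omega)
      have h3 : ((k - 1 : ℕ) : ℝ) = k - 1 := by
        push_cast [Nat.cast_sub hk]
        ring
      rw [h3] at h2
      calc |cc N a k - cc N a (k - 1)| ≤ |cc N a k| + |cc N a (k - 1)| := abs_sub _ _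
        _ ≤ 2 * (k + 1) * q + 2 * (k - 1 + 1) * q := by linarith
        _ ≤ 4 * ((k : ℝ) + 1) * q := by nlinarith
    · have hk1 : k = 1 := by omega
      subst hk1
      rw [if_pos rfl, Nat.sub_self, cc_zero]
      have h1 := hcc 1 le_rfl
      have e : cc N a 1 - 1 + 1 = cc N a 1 := by ring
      rw [e]
      push_cast at h1 ⊢
      linarith
  rw [← hinv]
  calc |∑ x ∈ n.divisorsAntidiagonal, ((ArithmeticFunction.moebius x.1 : ℤ) : ℝ) * F x.2|
      ≤ ∑ x ∈ n.divisorsAntidiagonal, |((ArithmeticFunction.moebius x.1 : ℤ) : ℝ) * F x.2| :=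
        Finset.abs_sum_le_sum_abs _ _
    _ ≤ ∑ x ∈ n.divisorsAntidiagonal, 4 * ((x.2 : ℝ) + 1) * q := by
        refine Finset.sum_le_sum fun x hx => ?_
        rw [Nat.mem_divisorsAntidiagonal] at hx
        have hx2 : x.2 ∣ n := ⟨x.1, by rw [mul_comm]; exact hx.1.symm⟩
        have h1 := Nat.le_of_dvd (by omega) hx2
        have h2 := Nat.pos_of_dvd_of_pos hx2 (by omega)
        rw [abs_mul]
        have h3 : |((ArithmeticFunction.moebius x.1 : ℤ) : ℝ)| ≤ 1 := by
          have := ArithmeticFunction.abs_moebius_le_one (n := x.1)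
          exact_mod_cast this
        calc |((ArithmeticFunction.moebius x.1 : ℤ) : ℝ)| * |F x.2| ≤ 1 * |F x.2| := by gcongr
          _ ≤ _ := by rw [one_mul]; exact hFb x.2 h2 (by omega)
    _ = (∑ x ∈ n.divisorsAntidiagonal, 4 * ((x.2 : ℝ) + 1)) * q := by rw [Finset.sum_mul]
    _ ≤ (1 + ∑ x ∈ n.divisorsAntidiagonal, 4 * ((x.2 : ℝ) + 1)) * q := by nlinarith

end Pool.Agent.Q229.OE
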