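import Pool.Agent.Q260.OE.Stm2

set_option autoImplicit false

/-!
# Job OE-NR1: if the Riemann hypothesis fails the error is far from the prime error
-/

namespace Pool.Agent.Q229.OE

open MeasureTheory Filter Topology Set
open Pool.Agent.Q286.BD (dif JJ S_nrh)
open Pool.Agent.Q260.OE
open Pool.Agent.Q260.GM (ph)

theorem dn_meas (N : ℕ) (a : ℕ → ℝ) : Measurable (Dn N a) := by
  have h : Measurable (dif N a) := by
    unfold dif
    refine Measurable.sub (Measurable.ite measurableSet_Iic measurable_const measurable_const) ?_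
    refine Finset.measurable_fun_sum _ fun n _ => ?_
    refine Measurable.const_mul ?_ _
    refine Measurable.fract ?_
    fun_prop
  exact h.comp (by fun_prop)

theorem dn_bd (N : ℕ) (a : ℕ → ℝ) (w : ℝ) : |Dn N a w| ≤ 1 + ∑ n ∈ Finset.Icc 1 N, |a n| := by
  unfold Dn dif
  refine (abs_sub _ _).trans (add_le_add ?_ ?_)
  · split_ifs <;> norm_num
  · refine (Finset.abs_sum_le_sum_abs _ _).trans (Finset.sum_le_sum fun n _ => ?_)
    rw [abs_mul, Int.abs_fract]
    exact mul_le_of_le_one_right (abs_nonneg _) (Int.fract_lt_one _).le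

theorem ph_meas : Measurable ph := by
  unfold ph
  refine Measurable.sub ?_ Real.measurable_exp
  exact (Chebyshev.psi_mono.measurable).comp Real.measurable_exp

theorem ph_bd {T w : ℝ} (hw : w ≤ T) : |ph w| ≤ Chebyshev.psi (Real.exp T) + Real.exp T := by
  unfold ph
  have h1 : Real.exp w ≤ Real.exp T := Real.exp_le_exp.2 hw
  have h2 := Chebyshev.psi_mono h1
  have h3 := Chebyshev.psi_nonneg (Real.exp w)
  have h4 := Real.exp_pos w
  rw [abs_le]
  constructor <;> linarith

theorem bdd_int {f : ℝ → ℝ} (hf : Measurable f) {s t K : ℝ} (hK : ∀ w ∈ Ioc s t, |f w| ≤ K) :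
    IntegrableOn f (Ioc s t) := by
  refine Measure.integrableOn_of_bounded (M := K) ?_ hf.aestronglyMeasurable ?_
  · rw [Real.volume_Ioc]
    exact ENNReal.ofReal_ne_top
  · rw [ae_restrict_iff' measurableSet_Ioc]
    exact Eventually.of_forall fun w hw => hK w hw

/-- JOB OE-NR1 -/
theorem t_NR1 (hnrh : S_nrh) (hBST : S_BST) (hXW : S_XW) (hNT : S_NT) : S_NR1 := by
  intro hRH a ha
  obtain ⟨c, hc, hJ⟩ := hnrh hRH
  obtain ⟨-, hB, -⟩ := hBST
  obtain ⟨hX1, -, -, hX4⟩ := hXW
  -- `c ≤ 1`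
  have hc1 : c ≤ 1 := (hJ 1 (a 1)).trans (hB 1 (a 1) (ha 1)).2
  -- the cut
  obtain ⟨M, hM0, hM⟩ : ∃ M : ℝ, 0 < M ∧ Real.exp (-M) ≤ c ^ 2 / 16 := by
    refine ⟨max 1 (-Real.log (c ^ 2 / 16)), lt_of_lt_of_le one_pos (le_max_left _ _), ?_⟩
    calc Real.exp (-(max 1 (-Real.log (c ^ 2 / 16)))) ≤ Real.exp (Real.log (c ^ 2 / 16)) := by
          apply Real.exp_le_exp.2
          have := le_max_right 1 (-Real.log (c ^ 2 / 16))
          linarith
      _ = c ^ 2 / 16 := Real.exp_log (by positivity)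
  set P : ℝ := |∫ w in Ioc 0 M, ph w * Real.exp (-w)| with hP
  have hP0 : 0 ≤ P := abs_nonneg _
  refine ⟨c ^ 2 / 4, by positivity, ?_⟩
  have hlog : Tendsto (fun N : ℕ => Real.log N) atTop atTop := Real.tendsto_log_atTop.comp tendsto_natCast_atTop_atTop
  filter_upwards [hlog.eventually_ge_atTop (max M (4 * P / c)), eventually_ge_atTop 1] with N hN hN1
  set L : ℝ := Real.log N with hL
  have hLM : M ≤ L := (le_max_left _ _).trans hN
  have hLP : 4 * P / c ≤ L := (le_max_right _ _).trans hN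
  have hL0 : 0 < L := lt_of_lt_of_le hM0 hLM
  set D : ℝ → ℝ := Dn N (a N) with hD
  have hDm : Measurable D := dn_meas N (a N)
  have hDb := dn_bd N (a N)
  set K : ℝ := 1 + ∑ n ∈ Finset.Icc 1 N, |a N n| with hK
  have hK0 : 0 ≤ K := (abs_nonneg _).trans (hDb 0)
  have hJc : c ≤ JJ N (a N) := hJ N (a N)
  obtain ⟨hBi, hB1⟩ := hB N (a N) (ha N)
  -- total mass
  obtain ⟨-, hJR, hDe, -, hsupp⟩ := hNT N (a N)
  have hsupp' : ∀ θ ∈ (nt N (a N)).support, 0 < θ ∧ θ ≤ 1 := by
    intro θ hθ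
    obtain ⟨h1, h2⟩ := hsupp θ hθ
    have : (0 : ℝ) < 1 / (N : ℝ) := by
      have : (1 : ℝ) ≤ N := by exact_mod_cast hN1
      positivity
    exact ⟨lt_of_lt_of_le this h1, h2⟩
  obtain ⟨hI, hI2⟩ := hX1 (nt N (a N)) hsupp'
  rw [hDe, hJR] at hI2
  rw [hDe] at hI
  -- the mean
  have hmean : ∫ w in Ici 0, D w * Real.exp (-w) = JJ N (a N) := by
    have h := hX4 (dif N (a N)) 0
    rw [neg_zero, Real.exp_zero, hBi] at h
    exact h.symm
  have hexpI : IntegrableOn (fun w : ℝ => Real.exp (-w)) (Ioi M) := integrableOn_exp_neg_Ioi M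
  have hDi : IntegrableOn (fun w => D w * Real.exp (-w)) (Ici 0) := by
    by_contra h
    rw [integral_undef h] at hmean
    linarith
  -- the tail
  have htail : ∫ w in Ioi M, D w * Real.exp (-w) ≤ c / 4 := by
    have hg : IntegrableOn (fun w => c / 8 * (D w ^ 2 * Real.exp (-w)) + 2 / c * Real.exp (-w)) (Ioi M) :=
      (hI.integrableOn.const_mul _).add (hexpI.const_mul _)
    calc ∫ w in Ioi M, D w * Real.exp (-w)
        ≤ ∫ w in Ioi M, (c / 8 * (D w ^ 2 * Real.exp (-w)) + 2 / c * Real.exp (-w)) := by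
          refine setIntegral_mono_on (hDi.mono_set fun w hw => (hM0.trans hw).le) hg measurableSet_Ioi
            fun w _ => ?_
          have h1 : D w ≤ c / 8 * D w ^ 2 + 2 / c := by
            have h2 : 0 ≤ (c * D w - 4) ^ 2 := sq_nonneg _
            have h3 : c / 8 * D w ^ 2 + 2 / c - D w = (c * D w - 4) ^ 2 / (8 * c) := by
              field_simp
              ring
            have h4 : 0 ≤ (c * D w - 4) ^ 2 / (8 * c) := by positivity
            linarith
          nlinarith [Real.exp_pos (-w)]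
      _ = c / 8 * (∫ w in Ioi M, D w ^ 2 * Real.exp (-w)) + 2 / c * ∫ w in Ioi M, Real.exp (-w) := by
          rw [integral_add (hI.integrableOn.const_mul _) (hexpI.const_mul _), integral_const_mul,
            integral_const_mul]
      _ ≤ c / 8 * 1 + 2 / c * (c ^ 2 / 16) := by
          have h1 : ∫ w in Ioi M, D w ^ 2 * Real.exp (-w) ≤ 1 := by
            calc ∫ w in Ioi M, D w ^ 2 * Real.exp (-w) ≤ ∫ w, D w ^ 2 * Real.exp (-w) :=
                  setIntegral_le_integral hI (Eventually.of_forall fun w =>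
                    mul_nonneg (sq_nonneg _) (Real.exp_pos _).le)
              _ ≤ 1 := by rw [hI2]; exact hB1
          have h2 : ∫ w in Ioi M, Real.exp (-w) ≤ c ^ 2 / 16 := by
            rw [integral_exp_neg_Ioi]
            exact hM
          gcongr
      _ = c / 4 := by
          field_simp
          ring
  -- the main part
  have hmain : 3 * c / 4 ≤ ∫ w in Ioc 0 M, D w * Real.exp (-w) := by
    have h1 : ∫ w in Ici 0, D w * Real.exp (-w) =
        (∫ w in Ioc 0 M, D w * Real.exp (-w)) + ∫ w in Ioi M, D w * Real.exp (-w) := by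
      rw [integral_Ici_eq_integral_Ioi, ← Ioc_union_Ioi_eq_Ioi hM0.le,
        setIntegral_union (Ioc_disjoint_Ioi le_rfl) measurableSet_Ioi
          (hDi.mono_set fun w hw => hw.1.le) (hDi.mono_set fun w hw => (hM0.trans hw).le)]
    linarith
  -- the lower bound
  set Q : ℝ → ℝ := fun w => (D w + ph w / L) ^ 2 * Real.exp (-w) with hQ
  have hQm : Measurable Q := ((hDm.add (ph_meas.div_const _)).pow_const 2).mul
    (Real.measurable_exp.comp measurable_neg)
  have hQ0 : ∀ w, 0 ≤ Q w := fun w => by positivity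
  have hQi : IntegrableOn Q (Ioc 0 L) := by
    refine bdd_int hQm (K := (K + (Chebyshev.psi (Real.exp L) + Real.exp L) / L) ^ 2) fun w hw => ?_
    rw [abs_of_nonneg (hQ0 w), hQ]
    simp only
    have h1 : |D w + ph w / L| ≤ K + (Chebyshev.psi (Real.exp L) + Real.exp L) / L := by
      refine (abs_add_le _ _).trans (add_le_add (hDb w) ?_)
      rw [abs_div, abs_of_pos hL0]
      gcongr
      exact ph_bd hw.2
    have h2 : Real.exp (-w) ≤ 1 := Real.exp_le_one_iff.2 (by linarith [hw.1])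
    have h3 : (D w + ph w / L) ^ 2 ≤ (K + (Chebyshev.psi (Real.exp L) + Real.exp L) / L) ^ 2 := by
      rw [← sq_abs]
      exact pow_le_pow_left₀ (abs_nonneg _) h1 2
    calc (D w + ph w / L) ^ 2 * Real.exp (-w) ≤ (D w + ph w / L) ^ 2 * 1 := by gcongr
      _ ≤ _ := by rw [mul_one]; exact h3
  have hDiM : IntegrableOn (fun w => D w * Real.exp (-w)) (Ioc 0 M) := hDi.mono_set fun w hw => hw.1.le
  have hphM : IntegrableOn (fun w => ph w * Real.exp (-w)) (Ioc 0 M) := by
    refine bdd_int (ph_meas.mul (Real.measurable_exp.comp measurable_neg))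
      (K := Chebyshev.psi (Real.exp M) + Real.exp M) fun w hw => ?_
    change |ph w * Real.exp (-w)| ≤ _
    rw [abs_mul, abs_of_pos (Real.exp_pos _)]
    have h2 : Real.exp (-w) ≤ 1 := Real.exp_le_one_iff.2 (by linarith [hw.1])
    calc |ph w| * Real.exp (-w) ≤ |ph w| * 1 := by gcongr
      _ ≤ _ := by rw [mul_one]; exact ph_bd hw.2
  have heM : IntegrableOn (fun w : ℝ => Real.exp (-w)) (Ioc 0 M) :=
    (integrableOn_exp_neg_Ioi 0).mono_set Ioc_subset_Ioi_self
  have hlow : c ^ 2 / 4 ≤ ∫ w in Ioc 0 L, Q w := by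
    have h1 : ∫ w in Ioc 0 M, Q w ≤ ∫ w in Ioc 0 L, Q w := by
      refine setIntegral_mono_set hQi (Eventually.of_forall hQ0) ?_
      exact (show Ioc 0 M ≤ Ioc 0 L from Ioc_subset_Ioc_right hLM).eventuallyLE
    have hgi : IntegrableOn (fun w => c * (D w * Real.exp (-w)) + c / L * (ph w * Real.exp (-w)) -
        c ^ 2 / 4 * Real.exp (-w)) (Ioc 0 M) :=
      ((hDiM.const_mul _).add (hphM.const_mul _)).sub (heM.const_mul _)
    have h2 : ∫ w in Ioc 0 M, (c * (D w * Real.exp (-w)) + c / L * (ph w * Real.exp (-w)) -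
        c ^ 2 / 4 * Real.exp (-w)) ≤ ∫ w in Ioc 0 M, Q w := by
      refine setIntegral_mono_on hgi (hQi.mono_set (Ioc_subset_Ioc_right hLM)) measurableSet_Ioc fun w _ => ?_
      have h3 : c * D w + c / L * ph w - c ^ 2 / 4 ≤ (D w + ph w / L) ^ 2 := by
        have h4 : c * D w + c / L * ph w = c * (D w + ph w / L) := by ring
        rw [h4]
        nlinarith [sq_nonneg (D w + ph w / L - c / 2)]
      have := mul_le_mul_of_nonneg_right h3 (Real.exp_pos (-w)).le
      rw [hQ]
      simp only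
      nlinarith
    have h5 : ∫ w in Ioc 0 M, (c * (D w * Real.exp (-w)) + c / L * (ph w * Real.exp (-w)) -
        c ^ 2 / 4 * Real.exp (-w)) = c * (∫ w in Ioc 0 M, D w * Real.exp (-w)) +
        c / L * (∫ w in Ioc 0 M, ph w * Real.exp (-w)) - c ^ 2 / 4 * ∫ w in Ioc 0 M, Real.exp (-w) := by
      rw [integral_sub, integral_add, integral_const_mul, integral_const_mul, integral_const_mul]
      · exact hDiM.const_mul _
      · exact hphM.const_mul _
      · exact (hDiM.const_mul _).add (hphM.const_mul _)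
      · exact heM.const_mul _
    have h6 : ∫ w in Ioc 0 M, Real.exp (-w) ≤ 1 := by
      calc ∫ w in Ioc 0 M, Real.exp (-w) ≤ ∫ w in Ioi (0 : ℝ), Real.exp (-w) := by
            refine setIntegral_mono_set (integrableOn_exp_neg_Ioi 0)
              (Eventually.of_forall fun w => (Real.exp_pos _).le) ?_
            exact (show Ioc 0 M ≤ Ioi 0 from Ioc_subset_Ioi_self).eventuallyLE
        _ = 1 := by rw [integral_exp_neg_Ioi, neg_zero, Real.exp_zero]
    have h7 : -P ≤ ∫ w in Ioc 0 M, ph w * Real.exp (-w) := neg_abs_le _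
    have h8 : c / L * P ≤ c ^ 2 / 4 := by
      rw [div_le_iff₀ hc] at hLP
      rw [div_mul_eq_mul_div, div_le_iff₀ hL0]
      nlinarith
    have h9 : c / L * (-P) ≤ c / L * ∫ w in Ioc 0 M, ph w * Real.exp (-w) :=
      mul_le_mul_of_nonneg_left h7 (by positivity)
    have h10 : c * (3 * c / 4) ≤ c * ∫ w in Ioc 0 M, D w * Real.exp (-w) :=
      mul_le_mul_of_nonneg_left hmain hc.le
    have h11 : c ^ 2 / 4 * ∫ w in Ioc 0 M, Real.exp (-w) ≤ c ^ 2 / 4 * 1 :=
      mul_le_mul_of_nonneg_left h6 (by positivity)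
    nlinarith
  rw [intervalIntegral.integral_of_le hL0.le]
  calc c ^ 2 / 4 * L = L * (c ^ 2 / 4) := by ring
    _ ≤ L * ∫ w in Ioc 0 L, Q w := by gcongr

end Pool.Agent.Q229.OE
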