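import Pool.Agent.Q260.OE.Stm2
import Pool.Agent.Q237.BD.Mel

set_option autoImplicit false

/-!
# Job OE-PL: Plancherel for the error and the model
-/

namespace Pool.Agent.Q229.OE

open Complex MeasureTheory Filter Topology Set
open Pool.Agent.Q286.BD (cl mz dif JJ difR JR)
open Pool.Agent.Q237.BD (cl_re cl_im cl_ne cl_norm fr_hasMellin exp_abs_int)
open Pool.Agent.Q260.OE
open scoped FourierTransform Real

/-! ## the error -/

/-- Mellin transform of `x ↦ {θ/x}` -/
theorem fr_real {θ : ℝ} (hθ : 0 < θ) {s : ℂ} (h0 : 0 < s.re) (h1 : s.re < 1) :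
    HasMellin (fun x : ℝ => ((Int.fract (θ / x) : ℝ) : ℂ)) s (-((θ : ℂ) ^ s * riemannZeta s / s)) := by
  have h := fr_hasMellin (n := 1) le_rfl h0 h1
  set F : ℝ → ℂ := fun x : ℝ => ((Int.fract (1 / (((1 : ℕ) : ℝ) * x)) : ℝ) : ℂ) with hF
  have e0 : (fun x : ℝ => ((Int.fract (θ / x) : ℝ) : ℂ)) = fun x => F (θ⁻¹ * x) := by
    ext x
    simp only [hF]
    congr 2
    rw [Nat.cast_one, one_mul, one_div, mul_inv, inv_inv, div_eq_mul_inv]
  have hi : 0 < θ⁻¹ := inv_pos.2 hθ
  rw [e0]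
  refine ⟨(MellinConvergent.comp_mul_left hi).2 h.1, ?_⟩
  rw [mellin_comp_mul_left _ _ hi, h.2, ofReal_inv, inv_cpow_eq_ite]
  have harg : (θ : ℂ).arg ≠ π := by
    rw [arg_ofReal_of_nonneg hθ.le]
    exact Real.pi_pos.ne
  rw [if_neg harg, cpow_neg, inv_inv, Nat.cast_one, one_cpow, smul_eq_mul]
  ring

theorem difR_mellin (a : ℝ →₀ ℝ) (ha : ∀ θ ∈ a.support, 0 < θ ∧ θ ≤ 1) (t : ℝ) :
    mellin (fun x => ((difR a x : ℝ) : ℂ)) (cl t) = TT a t / cl t := by
  have hre := cl_re t
  have h1 : HasMellin (indicator (Ioc 0 1) (fun _ => 1 : ℝ → ℂ)) (cl t) (1 / cl t) :=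
    hasMellin_one_Ioc (by rw [hre]; norm_num)
  have h2 : ∀ θ ∈ a.support, HasMellin (fun x : ℝ => ((Int.fract (θ / x) : ℝ) : ℂ)) (cl t)
      (-((θ : ℂ) ^ (cl t) * riemannZeta (cl t) / cl t)) := fun θ hθ =>
    fr_real (ha θ hθ).1 (by rw [hre]; norm_num) (by rw [hre]; norm_num)
  unfold mellin
  have e1 : ∀ x ∈ Ioi (0 : ℝ), (x : ℂ) ^ (cl t - 1) • ((difR a x : ℝ) : ℂ) =
      (x : ℂ) ^ (cl t - 1) • indicator (Ioc 0 1) (fun _ => 1 : ℝ → ℂ) x -
        ∑ θ ∈ a.support, (a θ : ℂ) * ((x : ℂ) ^ (cl t - 1) • ((Int.fract (θ / x) : ℝ) : ℂ)) := by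
    intro x hx
    have hx0 : 0 < x := hx
    unfold difR
    have e2 : indicator (Ioc 0 1) (fun _ => 1 : ℝ → ℂ) x = (((if x ≤ 1 then 1 else 0 : ℝ)) : ℂ) := by
      by_cases h : x ≤ 1
      · have hmem : x ∈ Ioc (0 : ℝ) 1 := ⟨hx0, h⟩
        rw [indicator_of_mem hmem, if_pos h]
        simp
      · rw [indicator_of_notMem (fun hm => h hm.2), if_neg h]
        simp
    rw [e2, ofReal_sub, smul_sub]
    congr 1
    rw [Finsupp.sum, ofReal_sum, Finset.smul_sum]
    refine Finset.sum_congr rfl fun n _ => ?_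
    simp only [smul_eq_mul, ofReal_mul]
    ring
  rw [setIntegral_congr_fun measurableSet_Ioi e1, integral_sub, integral_finsetSum]
  · have e3 : ∀ θ ∈ a.support, ∫ x in Ioi (0 : ℝ),
        (a θ : ℂ) * ((x : ℂ) ^ (cl t - 1) • ((Int.fract (θ / x) : ℝ) : ℂ)) =
        (a θ : ℂ) * (-((θ : ℂ) ^ (cl t) * riemannZeta (cl t) / cl t)) := by
      intro n hn
      rw [integral_const_mul]
      congr 1
      exact (h2 n hn).2
    rw [Finset.sum_congr rfl e3]
    have e4 := h1.2
    unfold mellin at e4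
    unfold TT
    rw [e4, add_div, sub_eq_add_neg, ← Finset.sum_neg_distrib, Finsupp.sum, Finset.mul_sum, Finset.sum_div]
    congr 1
    refine Finset.sum_congr rfl fun n _ => ?_
    ring
  · intro n hn
    exact ((h2 n hn).1).const_mul _
  · exact h1.1
  · apply integrable_finsetSum
    intro n hn
    exact ((h2 n hn).1).const_mul _

theorem difR_meas (a : ℝ →₀ ℝ) : Measurable (difR a) := by
  unfold difR
  refine Measurable.sub (Measurable.ite measurableSet_Iic measurable_const measurable_const) ?_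
  unfold Finsupp.sum
  refine Finset.measurable_fun_sum _ fun n _ => ?_
  refine Measurable.const_mul (Measurable.fract ?_) _
  fun_prop

/-- the bound -/
noncomputable def Ba (a : ℝ →₀ ℝ) : ℝ := 1 + ∑ θ ∈ a.support, |a θ|

theorem difR_bd (a : ℝ →₀ ℝ) (x : ℝ) : |difR a x| ≤ Ba a := by
  unfold difR Ba Finsupp.sum
  refine (abs_sub _ _).trans (add_le_add ?_ ?_)
  · split_ifs <;> norm_num
  · refine (Finset.abs_sum_le_sum_abs _ _).trans (Finset.sum_le_sum fun n _ => ?_)
    rw [abs_mul, Int.abs_fract]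
    exact mul_le_of_le_one_right (abs_nonneg _) (Int.fract_lt_one _).le

theorem difR_right (a : ℝ →₀ ℝ) (ha : ∀ θ ∈ a.support, 0 < θ ∧ θ ≤ 1) {x : ℝ} (hx : 1 < x) :
    |difR a x| ≤ Ba a / x := by
  have hx0 : 0 < x := by linarith
  unfold difR Ba Finsupp.sum
  rw [if_neg (not_le.2 hx), zero_sub, abs_neg, add_div, Finset.sum_div]
  have h1 : |∑ θ ∈ a.support, a θ * Int.fract (θ / x)| ≤ ∑ θ ∈ a.support, |a θ| / x := by
    refine (Finset.abs_sum_le_sum_abs _ _).trans (Finset.sum_le_sum fun θ hθ => ?_)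
    obtain ⟨h1, h2⟩ := ha θ hθ
    have h3 : Int.fract (θ / x) = θ / x := by
      rw [Int.fract_eq_self]
      exact ⟨by positivity, (div_lt_one hx0).2 (by linarith)⟩
    rw [abs_mul, h3, abs_of_pos (by positivity : 0 < θ / x), div_eq_mul_one_div |a θ| x]
    apply mul_le_mul_of_nonneg_left _ (abs_nonneg _)
    exact div_le_div_of_nonneg_right h2 hx0.le
  have h2 : 0 ≤ 1 / x := by positivity
  linarith

/-- the error on the line -/
noncomputable def GR (a : ℝ →₀ ℝ) (u : ℝ) : ℂ := Real.exp (-(1 / 2) * u) • ((difR a (Real.exp (-u)) : ℝ) : ℂ)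

theorem GR_bd (a : ℝ →₀ ℝ) (ha : ∀ θ ∈ a.support, 0 < θ ∧ θ ≤ 1) (u : ℝ) :
    ‖GR a u‖ ≤ Ba a * Real.exp (-(1 / 2 * |u|)) := by
  have hB : 0 ≤ Ba a := by unfold Ba; positivity
  unfold GR
  rw [norm_smul, Real.norm_eq_abs, abs_of_pos (Real.exp_pos _), Complex.norm_real, Real.norm_eq_abs]
  rcases le_or_gt 0 u with h | h
  · rw [abs_of_nonneg h, mul_comm]
    have : -(1 / 2) * u = -(1 / 2 * u) := by ring
    rw [this]
    apply mul_le_mul_of_nonneg_right (difR_bd a _) (Real.exp_pos _).le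
  · rw [abs_of_neg h]
    have h1 : 1 < Real.exp (-u) := Real.one_lt_exp_iff.2 (by linarith)
    have h2 := difR_right a ha h1
    calc Real.exp (-(1 / 2) * u) * |difR a (Real.exp (-u))|
        ≤ Real.exp (-(1 / 2) * u) * (Ba a / Real.exp (-u)) := by gcongr
      _ = Ba a * (Real.exp (-(1 / 2) * u) / Real.exp (-u)) := by ring
      _ = Ba a * Real.exp (-(1 / 2 * -u)) := by
          rw [← Real.exp_sub]
          congr 2
          ring

theorem GR_meas (a : ℝ →₀ ℝ) : Measurable (GR a) := by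
  have h1 : Measurable (fun u : ℝ => Real.exp (-(1 / 2) * u)) := by fun_prop
  have h2 : Measurable (fun u : ℝ => ((difR a (Real.exp (-u)) : ℝ) : ℂ)) :=
    Complex.measurable_ofReal.comp ((difR_meas a).comp (by fun_prop))
  exact h1.smul h2

theorem GR_int (a : ℝ →₀ ℝ) (ha : ∀ θ ∈ a.support, 0 < θ ∧ θ ≤ 1) : Integrable (GR a) :=
  Integrable.mono' ((exp_abs_int (b := 1 / 2) (by norm_num)).const_mul _) (GR_meas a).aestronglyMeasurable
    (Eventually.of_forall fun u => GR_bd a ha u)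

theorem GR_mem (a : ℝ →₀ ℝ) (ha : ∀ θ ∈ a.support, 0 < θ ∧ θ ≤ 1) : MemLp (GR a) 2 := by
  refine (memLp_two_iff_integrable_sq_norm (GR_meas a).aestronglyMeasurable).2 ?_
  have h1 := (exp_abs_int (b := 1) (by norm_num)).const_mul (Ba a ^ 2)
  refine Integrable.mono' h1 ((GR_meas a).norm.pow_const 2).aestronglyMeasurable
    (Eventually.of_forall fun u => ?_)
  rw [Real.norm_eq_abs, abs_of_nonneg (by positivity)]
  calc ‖GR a u‖ ^ 2 ≤ (Ba a * Real.exp (-(1 / 2 * |u|))) ^ 2 :=
        pow_le_pow_left₀ (norm_nonneg _) (GR_bd a ha u) 2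
    _ = Ba a ^ 2 * Real.exp (-(1 * |u|)) := by
        rw [mul_pow, ← Real.exp_nat_mul]
        congr 2
        push_cast
        ring

theorem GR_four (a : ℝ →₀ ℝ) (ha : ∀ θ ∈ a.support, 0 < θ ∧ θ ≤ 1) (t : ℝ) :
    𝓕 (GR a) (t / (2 * π)) = TT a t / cl t := by
  rw [← difR_mellin a ha, mellin_eq_fourier, cl_re, cl_im]
  rfl

/-! ## the model -/

/-- the model without the cut-off -/
noncomputable def G2 (S : Finset ℝ) (L w : ℝ) : ℂ :=
  ((Real.exp (-(1 / 2) * w) : ℝ) : ℂ) * (1 / (L : ℂ) * ∑ g ∈ S, (((pm (mz (cl g))).eval (w / L) : ℝ) : ℂ) *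
    cexp (w * cl g) / cl g)

theorem G2_cont (S : Finset ℝ) (L : ℝ) : Continuous (G2 S L) := by
  unfold G2
  refine Continuous.mul ?_ (Continuous.mul continuous_const ?_)
  · exact Complex.continuous_ofReal.comp (Real.continuous_exp.comp (continuous_const.mul continuous_id))
  · refine continuous_finsetSum _ fun g _ => ?_
    refine Continuous.div_const ?_ _
    refine Continuous.mul ?_ ?_
    · exact Complex.continuous_ofReal.comp ((Polynomial.continuous _).comp (continuous_id.div_const _))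
    · exact Complex.continuous_exp.comp (Complex.continuous_ofReal.mul continuous_const)

/-- the model on the line -/
noncomputable def GM (S : Finset ℝ) (L w : ℝ) : ℂ := indicator (Icc 0 L) (G2 S L) w

theorem GM_eq (S : Finset ℝ) (L w : ℝ) : GM S L w = Real.exp (-(1 / 2) * w) • Mo S L w := by
  unfold GM Mo G2
  by_cases h : 0 ≤ w ∧ w ≤ L
  · rw [indicator_of_mem (show w ∈ Icc 0 L from h), if_pos h, Complex.real_smul]
  · rw [indicator_of_notMem (show w ∉ Icc 0 L from h), if_neg h, smul_zero]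

theorem GM_int (S : Finset ℝ) (L : ℝ) : Integrable (GM S L) :=
  ((G2_cont S L).integrableOn_Icc).integrable_indicator measurableSet_Icc

theorem GM_mem (S : Finset ℝ) (L : ℝ) : MemLp (GM S L) 2 := by
  refine (memLp_two_iff_integrable_sq_norm (GM_int S L).aestronglyMeasurable).2 ?_
  have h : (fun w => ‖GM S L w‖ ^ 2) = indicator (Icc 0 L) (fun w => ‖G2 S L w‖ ^ 2) := by
    ext w
    unfold GM
    by_cases h : w ∈ Icc 0 L
    · rw [indicator_of_mem h, indicator_of_mem h]
    · rw [indicator_of_notMem h, indicator_of_notMem h]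
      simp
  rw [h]
  exact (((G2_cont S L).norm.pow 2).integrableOn_Icc).integrable_indicator measurableSet_Icc

theorem GM_four (S : Finset ℝ) {L : ℝ} (hL : 0 < L) (t : ℝ) :
    𝓕 (GM S L) (t / (2 * π)) = ∑ g ∈ S, FF (mz (cl g)) ((t - g) * L) / cl g := by
  have hpi := Real.pi_pos
  have hL' : (L : ℂ) ≠ 0 := by exact_mod_cast hL.ne'
  rw [Real.fourier_real_eq_integral_exp_smul]
  have e1 : (fun v : ℝ => cexp (((-2 * π * v * (t / (2 * π)) : ℝ) : ℂ) * I) • GM S L v) =
      indicator (Icc 0 L) (fun v : ℝ => ∑ g ∈ S, 1 / cl g * (1 / (L : ℂ) *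
        ((((pm (mz (cl g))).eval (v / L) : ℝ) : ℂ) * cexp (-((v / L : ℝ) * (((t - g) * L : ℝ) : ℂ) * I))))) := by
    ext v
    unfold GM
    by_cases h : v ∈ Icc 0 L
    · rw [indicator_of_mem h, indicator_of_mem h, G2, smul_eq_mul, Finset.mul_sum, Finset.mul_sum, Finset.mul_sum]
      refine Finset.sum_congr rfl fun g _ => ?_
      have e2 : cexp (-((v / L : ℝ) * (((t - g) * L : ℝ) : ℂ) * I)) =
          cexp (((-2 * π * v * (t / (2 * π)) : ℝ) : ℂ) * I) *
            (((Real.exp (-(1 / 2) * v) : ℝ) : ℂ) * cexp (v * cl g)) := by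
        rw [ofReal_exp, ← Complex.exp_add, ← Complex.exp_add]
        congr 1
        unfold cl
        push_cast
        have hp : (π : ℂ) ≠ 0 := by exact_mod_cast hpi.ne'
        field_simp
        ring
      rw [e2]
      ring
    · rw [indicator_of_notMem h, indicator_of_notMem h, smul_zero]
  rw [e1, integral_indicator measurableSet_Icc, integral_Icc_eq_integral_Ioc, integral_finsetSum]
  · refine Finset.sum_congr rfl fun g _ => ?_
    rw [integral_const_mul, integral_const_mul, ← intervalIntegral.integral_of_le hL.le]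
    unfold FF
    have e3 := intervalIntegral.integral_comp_div (a := 0) (b := L)
      (fun u : ℝ => (((pm (mz (cl g))).eval u : ℝ) : ℂ) * cexp (-((u : ℂ) * (((t - g) * L : ℝ) : ℂ) * I))) hL.ne'
    rw [e3, zero_div, div_self hL.ne', Complex.real_smul]
    have e4 : ∀ Z : ℂ, 1 / cl g * (1 / (L : ℂ) * ((L : ℂ) * Z)) = Z / cl g := by
      intro Z
      field_simp
    exact e4 _
  · intro g _
    refine Continuous.integrableOn_Ioc ?_
    refine continuous_const.mul (continuous_const.mul (Continuous.mul ?_ ?_))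
    · exact Complex.continuous_ofReal.comp ((Polynomial.continuous _).comp (continuous_id.div_const _))
    · refine Complex.continuous_exp.comp (Continuous.neg (Continuous.mul (Continuous.mul ?_ continuous_const)
        continuous_const))
      exact Complex.continuous_ofReal.comp (continuous_id.div_const _)

/-! ## Plancherel -/

theorem fi_int {f : ℝ → ℂ} (hf : Integrable f) (x : ℝ) :
    Integrable (fun v : ℝ => cexp (((-2 * π * v * x : ℝ) : ℂ) * I) • f v) := by
  have hc : Continuous (fun v : ℝ => cexp (((-2 * π * v * x : ℝ) : ℂ) * I)) := by fun_prop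
  refine hf.mono (hc.aestronglyMeasurable.smul hf.aestronglyMeasurable) (Eventually.of_forall fun v => ?_)
  · rw [norm_smul, Complex.norm_exp_ofReal_mul_I, one_mul]

/-- JOB OE-PL -/
theorem t_PL : S_PL := by
  intro S L a hL ha
  have hpi := Real.pi_pos
  set H : ℝ → ℂ := GR a - GM S L with hH
  have hHi : Integrable H := (GR_int a ha).sub (GM_int S L)
  have hHm : MemLp H 2 := (GR_mem a ha).sub (GM_mem S L)
  obtain ⟨hm, hpl⟩ := Pool.Agent.Helper625.Planch.plancherel H hHi hHm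
  have hFi : Integrable (fun w : ℝ => ‖𝓕 H w‖ ^ 2) :=
    (memLp_two_iff_integrable_sq_norm hm.aestronglyMeasurable).1 hm
  have hF : ∀ t : ℝ, 𝓕 H (t / (2 * π)) = TT a t / cl t - ∑ g ∈ S, FF (mz (cl g)) ((t - g) * L) / cl g := by
    intro t
    rw [← GR_four a ha, ← GM_four S hL, hH]
    rw [Real.fourier_real_eq_integral_exp_smul, Real.fourier_real_eq_integral_exp_smul,
      Real.fourier_real_eq_integral_exp_smul, ← integral_sub]
    · refine integral_congr_ae (Eventually.of_forall fun v => ?_)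
      simp only [Pi.sub_apply, smul_sub]
    · exact fi_int (GR_int a ha) _
    · exact fi_int (GM_int S L) _
  have e1 : ∀ t : ℝ, ‖TT a t / cl t - ∑ g ∈ S, FF (mz (cl g)) ((t - g) * L) / cl g‖ ^ 2 =
      (fun w : ℝ => ‖𝓕 H w‖ ^ 2) (t / (2 * π)) := by
    intro t
    simp only
    rw [hF]
  have e2 : ∀ w : ℝ, ‖(De a w : ℂ) - Mo S L w‖ ^ 2 * Real.exp (-w) = ‖H w‖ ^ 2 := by
    intro w
    rw [hH, Pi.sub_apply, GM_eq, GR, ← smul_sub, norm_smul, Real.norm_eq_abs, abs_of_pos (Real.exp_pos _),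
      mul_pow, ← Real.exp_nat_mul, mul_comm]
    unfold De
    congr 2
    push_cast
    ring
  refine ⟨?_, ?_⟩
  · simp only [e1]
    exact hFi.comp_div (by positivity)
  · simp only [e1, e2]
    rw [Measure.integral_comp_div (fun w : ℝ => ‖𝓕 H w‖ ^ 2) (2 * π), ← hpl,
      abs_of_pos (by positivity), smul_eq_mul]
    field_simp

end Pool.Agent.Q229.OE
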